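import Pool.Agent.W912.LG.Defs

/-! Project LG (helper912), LG-FPD. -/

set_option autoImplicit false

namespace Pool.Agent.W119.LG

open Pool.Agent.NPC Pool.Agent.H620R2.Gauge Pool.Agent.W912.LG

theorem log_eq (n : ℕ) : Nat.log 2 n = n.bits.length - 1 := by
  rw [Nat.size_eq_bits_len]
  rcases Nat.eq_zero_or_pos n with h | h
  · subst h; simp
  · have h1 : n ≠ 0 := by omega
    refine Nat.log_eq_of_pow_le_of_lt_pow ?_ ?_
    · have h2 : n.size - 1 < n.size := by
        have := Nat.size_pos.2 h
        omega
      exact Nat.lt_size.1 h2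
    · have h2 := Nat.lt_size_self n
      have h3 : n.size - 1 + 1 = n.size := by
        have := Nat.size_pos.2 h
        omega
      rwa [h3]

theorem upoly_dd (p q : ℕ) : UPoly (fun x : List Bool => dd p q x.length) := by
  have h0 : NPC.Poly (fun x : List Bool => Nat.log 2 x.length) := by
    refine (NPC.Poly.sub (NPC.Poly.length (NPC.Poly.natBits (NPC.Poly.length NPC.Poly.id)))
      (NPC.Poly.const 1)).congr fun a => ?_
    exact (log_eq _).symm
  have h1 : NPC.Poly (fun x : List Bool => p * Nat.log 2 x.length / q) :=
    NPC.Poly.div (NPC.Poly.mul (NPC.Poly.const p) h0) (NPC.Poly.const q)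
  have h2 : UPoly (fun x : List Bool => p * x.length) :=
    UPoly.mul (UPoly.const p) (UPoly.length NPC.Poly.id)
  refine UPoly.of_le h1 h2 fun x => ?_
  refine (Nat.div_le_self _ _).trans (Nat.mul_le_mul_left _ (Nat.log_le_self _ _))

theorem poly_D (p q : ℕ) :
    NPC.Poly (fun x : List Bool => List.replicate (dd p q x.length) true) := by
  have h := upoly_dd p q
  refine (NPC.Poly.map (F := fun _ _ => true) h (NPC.Poly.const true)).congr fun a => ?_
  simp

/-- the algorithm -/
noncomputable def alg (p q : ℕ) : Alg where
  D := fun y => true :: List.replicate (dd p q (unpair y).1.length) true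
  poly := Pool.Agent.H622R2.polyTime_of_poly_list
    (NPC.Poly.cons (NPC.Poly.const true) ((poly_D p q).comp (NPC.Poly.fst poly_unpair)))
  p := 1

theorem t_FPD : S_FPD := by
  intro p q A _
  refine ⟨fun x => List.replicate (dd p q x.length) true, ⟨alg p q, fun x => ?_⟩, fun m => by simp⟩
  have h1 : (alg p q).D (pairBits x []) = true :: List.replicate (dd p q x.length) true := by
    change true :: List.replicate (dd p q (unpair (pairBits x [])).1.length) true = _
    rw [unpair_pairBits]
  have h2 : (alg p q).p.eval x.length = 0 + 1 := by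
    change (1 : Polynomial ℕ).eval x.length = 1
    simp
  unfold Alg.out
  rw [h2, Alg.run]
  simp only [h1]

end Pool.Agent.W119.LG
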